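import Mathlib
import Pool.Agent.H332R2.Lit.Main

namespace Pool.Agent.Results.MP_0ea415_nt.Dilations

open Filter Pool.Agent.H332R2.Lit

open Classical in
/-- For all real `α, β` and every `ε > 0` the integers `l` for which `(α, lβ)` violates
`liminf q ‖qα‖ ‖q l β‖ < ε` have Banach density zero; if `1, α, β` are linearly independent over
`ℚ` the same holds with all inhomogeneous shifts `γ` at once. -/
theorem result (α β ε δ : ℝ) (hε : 0 < ε) (hδ : 0 < δ) :
    ∃ N₀ : ℕ, ∀ N ≥ N₀, ∀ T : ℕ,
      (((Finset.Ico T (T + N)).filter (fun l : ℕ =>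
        ¬ ∀ γ : ℝ, (γ = 0 ∨ LinearIndependent ℚ ![1, α, β]) →
          ∃ᶠ q : ℕ in atTop, (q : ℝ) * |q * α - round (q * α)|
            * |(q * (l * β) - γ) - round (q * (l * β) - γ)| < ε)).card : ℝ) ≤ δ * N := by
  by_cases hbad : ∃ c : ℝ, 0 < c ∧ ∀ᶠ q : ℕ in atTop, c ≤ (q : ℝ) * |q * α - round (q * α)|
  · by_cases hrel : ∃ U V W : ℤ, U ≠ 0 ∧ (U : ℝ) * β = V * α + W
    · -- resonant case: no exceptions
      obtain ⟨c, hc, hbad⟩ := hbad
      have hα := irrational_of_bad hc hbad
      obtain ⟨U, V, W, hU, hrel⟩ := hrel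
      have hdep : ¬ LinearIndependent ℚ ![1, α, β] := by
        intro hli
        rw [Fintype.linearIndependent_iff] at hli
        have h := hli ![(W : ℚ), (V : ℚ), -(U : ℚ)] (by
          simp only [Fin.sum_univ_three, Matrix.cons_val_zero, Matrix.cons_val_one,
            Matrix.cons_val]
          simp only [Rat.smul_def]
          push_cast
          linarith) 2
        simp at h
        exact hU h
      refine ⟨0, fun N _ T => ?_⟩
      have h0 : ((Finset.Ico T (T + N)).filter (fun l : ℕ =>
          ¬ ∀ γ : ℝ, (γ = 0 ∨ LinearIndependent ℚ ![1, α, β]) →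
            ∃ᶠ q : ℕ in atTop, (q : ℝ) * |q * α - round (q * α)|
              * |(q * (l * β) - γ) - round (q * (l * β) - γ)| < ε)) = ∅ := by
        rw [Finset.filter_eq_empty_iff]
        intro l _ hcon
        apply hcon
        rintro γ (rfl | hli)
        · simpa using freq_of_relation hα U V W hU hrel l hε
        · exact absurd hli hdep
      rw [h0]
      simp only [Finset.card_empty, Nat.cast_zero]
      positivity
    · obtain ⟨c, hc, hbad⟩ := hbad
      obtain ⟨N₀, hN₀⟩ := main_case hc hbad hrel hε hδ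
      refine ⟨N₀, fun N hN T => hN₀ N hN T _ (Finset.filter_subset _ _) ?_⟩
      intro l hl hcon
      exact (Finset.mem_filter.1 hl).2 (fun γ _ => hcon γ)
  · refine ⟨0, fun N _ T => ?_⟩
    have h0 : ((Finset.Ico T (T + N)).filter (fun l : ℕ =>
        ¬ ∀ γ : ℝ, (γ = 0 ∨ LinearIndependent ℚ ![1, α, β]) →
          ∃ᶠ q : ℕ in atTop, (q : ℝ) * |q * α - round (q * α)|
            * |(q * (l * β) - γ) - round (q * (l * β) - γ)| < ε)) = ∅ := by
      rw [Finset.filter_eq_empty_iff]
      intro l _ hcon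
      exact hcon (fun γ _ => freq_of_not_bad hbad (fun q => q * (l * β) - γ) hε)
    rw [h0]
    simp only [Finset.card_empty, Nat.cast_zero]
    positivity

end Pool.Agent.Results.MP_0ea415_nt.Dilations
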