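import Mathlib
import Pool.Agent.H389R2.LC.Cx

/-! # MP_0ea415_nt: Littlewood's conjecture for a quadratic `α` and for `β` whose expansion in
base a unit of the field has repetitions of exponent above `3/2`, or complexity below `3n`.

Let `ε > 1`, `ε² - tε + 1 = 0` with an integer `t ≥ 3`, and let `α = a + bε` with rational `a, b`.
Every real quadratic irrational is of this form (first part), and every real `β` has expansions
`β = ∑ d_k ε^{-k}` with bounded integer digits `d_k` (second part). The third part shows that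
Littlewood's conjecture holds for `(α, β)` as soon as one of these expansions has, for every `K`,
a block of length `n` which reappears, up to sign, at a distance at most `2n - K`. This is so in
particular if the number of blocks of length `n` (up to sign) is at most `3n - K` for some `n`.
If the repetitions occur near the beginning (in particular if the number of blocks of length `n`
is at most `γ n` for some `γ < 3` and arbitrarily large `n`), then even
`q^{1+η} ‖qα‖ ‖qβ‖ < 1` for some `η > 0` and infinitely many `q`. -/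

namespace Pool.Agent.Results.MP_0ea415_nt.QuadraticRepetitions

/-- Littlewood's conjecture for the pair `(α, β)` (the form of the frozen statement). -/
def Littlewood (α β : ℝ) : Prop :=
  ∀ η : ℝ, 0 < η → ∀ N : ℕ, ∃ q : ℕ, N ≤ q ∧ 0 < q ∧
    (q : ℝ) * |(q : ℝ) * α - (round ((q : ℝ) * α) : ℝ)|
      * |(q : ℝ) * β - (round ((q : ℝ) * β) : ℝ)| < η

/-- `q^{1+η} ‖qα‖ ‖qβ‖ < 1` for some `η > 0` and arbitrarily large `q`. -/
def PowerSaving (α β : ℝ) : Prop :=
  ∃ η : ℝ, 0 < η ∧ ∀ N : ℕ, ∃ q : ℕ, N ≤ q ∧ 0 < q ∧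
    (q : ℝ) ^ (1 + η) * |(q : ℝ) * α - (round ((q : ℝ) * α) : ℝ)|
      * |(q : ℝ) * β - (round ((q : ℝ) * β) : ℝ)| < 1

/-- The block of length `n` of `d` at position `s` reappears, up to sign, at distance `ℓ`. -/
def Repeats (d : ℕ → ℤ) (s ℓ n : ℕ) : Prop :=
  ∃ σ : ℤ, (σ = 1 ∨ σ = -1) ∧ ∀ k, s ≤ k → k < s + n → d (k + ℓ) = σ * d k

/-- The number of blocks of length `n` of `d`, where a block `w` and its negative `-w` are
identified (so it is at most the usual complexity, the number of all blocks of length `n`). -/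
noncomputable def complexity (d : ℕ → ℤ) (n : ℕ) : ℕ :=
  (Set.range (fun i : ℕ => ({(fun k : Fin n => d (i + k)), (fun k : Fin n => - d (i + k))} :
    Set (Fin n → ℤ)))).ncard

theorem result :
    -- every real quadratic irrational is `a + b ε`
    (∀ α : ℝ, Irrational α → (∃ A B C : ℤ, A ≠ 0 ∧ (A : ℝ) * α ^ 2 + B * α + C = 0) →
      ∃ (t : ℤ) (ε : ℝ), 3 ≤ t ∧ 1 < ε ∧ ε ^ 2 - t * ε + 1 = 0 ∧ ∃ a b : ℚ, α = a + b * ε) ∧
    -- every real number has an expansion with bounded integer digits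
    (∀ ε : ℝ, 1 < ε → ∀ β : ℝ, ∃ d : ℕ → ℤ, (∃ B : ℤ, ∀ k, |d k| ≤ B) ∧
      β = ∑' k : ℕ, (d k : ℝ) * ε⁻¹ ^ k) ∧
    -- main statements
    (∀ (t : ℤ) (ε : ℝ), 3 ≤ t → 1 < ε → ε ^ 2 - t * ε + 1 = 0 →
      ∀ (a b : ℚ) (α : ℝ), α = a + b * ε →
      ∀ (d : ℕ → ℤ) (β : ℝ), (∃ B : ℤ, ∀ k, |d k| ≤ B) → β = ∑' k : ℕ, (d k : ℝ) * ε⁻¹ ^ k →
        ((∀ K : ℕ, ∃ s ℓ n : ℕ, 0 < ℓ ∧ ℓ + K ≤ 2 * n ∧ Repeats d s ℓ n) → Littlewood α β) ∧
        ((∀ K : ℕ, ∃ n : ℕ, complexity d n + K ≤ 3 * n) → Littlewood α β) ∧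
        ((∃ κ : ℝ, 0 < κ ∧ ∀ K : ℕ, ∃ s ℓ n : ℕ, 0 < ℓ ∧ K ≤ n ∧
            (ℓ : ℝ) + κ * (s + n) ≤ 2 * n ∧ Repeats d s ℓ n) → PowerSaving α β) ∧
        ((∃ γ : ℝ, γ < 3 ∧ ∀ K : ℕ, ∃ n : ℕ, K ≤ n ∧ (complexity d n : ℝ) ≤ γ * n) →
            PowerSaving α β)) := by
  refine ⟨?_, ?_, ?_⟩
  · rintro α hirr ⟨A, B, C, hA, h⟩
    exact H389R2.LC.quad_unit α hirr A B C hA h
  · exact H389R2.LC.expansion
  · intro t ε ht h1 hq a b α hα d β ⟨B, hB⟩ hβ
    have hb : H389R2.LC.Base t ε := ⟨ht, h1, hq⟩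
    have hBr : ∀ k, |(d k : ℝ)| ≤ (B : ℝ) := by
      intro k
      have := hB k
      exact_mod_cast this
    have hc : 0 < a.den * b.den := Nat.mul_pos a.den_pos b.den_pos
    have hαc : ((a.den * b.den : ℕ) : ℝ) * α
        = ((a.num * b.den : ℤ) : ℝ) + ((b.num * a.den : ℤ) : ℝ) * ε := by
      have ha : (a.den : ℝ) * (a : ℝ) = a.num := by
        have := Rat.mul_den_eq_num a
        have h2 : ((a * a.den : ℚ) : ℝ) = ((a.num : ℚ) : ℝ) := by rw [this]
        push_cast at h2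
        linarith
      have hb' : (b.den : ℝ) * (b : ℝ) = b.num := by
        have := Rat.mul_den_eq_num b
        have h2 : ((b * b.den : ℚ) : ℝ) = ((b.num : ℚ) : ℝ) := by rw [this]
        push_cast at h2
        linarith
      rw [hα]
      push_cast
      linear_combination (b.den : ℝ) * ha + (a.den : ℝ) * ε * hb'
    have hps : ∀ {η : ℝ} {q : ℕ}, 0 < q → (q : ℝ) ^ η * H389R2.LC.L α β q < 1 →
        (q : ℝ) ^ (1 + η) * |(q : ℝ) * α - (round ((q : ℝ) * α) : ℝ)|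
          * |(q : ℝ) * β - (round ((q : ℝ) * β) : ℝ)| < 1 := by
      intro η q hq h
      have hq' : (0 : ℝ) < q := by exact_mod_cast hq
      rw [Real.rpow_add hq', Real.rpow_one]
      unfold H389R2.LC.L at h
      calc _ = (q : ℝ) ^ η * ((q : ℝ) * |(q : ℝ) * α - (round ((q : ℝ) * α) : ℝ)|
            * |(q : ℝ) * β - (round ((q : ℝ) * β) : ℝ)|) := by ring
        _ < 1 := h
    refine ⟨?_, ?_, ?_, ?_⟩
    · intro h
      exact H389R2.LC.rep_LC hb α β _ _ _ hc hαc d B hBr hβ h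
    · intro h
      exact H389R2.LC.cx_LC hb α β _ _ _ hc hαc d B hBr hβ h
    · rintro ⟨κ, hκ, h⟩
      obtain ⟨η, hη, h2⟩ := H389R2.LC.rep_rate hb α β _ _ _ hc hαc d B hBr hβ κ hκ h
      refine ⟨η, hη, fun N => ?_⟩
      obtain ⟨q, h3, h4, h5⟩ := h2 N
      exact ⟨q, h3, h4, hps h4 h5⟩
    · rintro ⟨γ, hγ, h⟩
      obtain ⟨η, hη, h2⟩ := H389R2.LC.cx_rate hb α β _ _ _ hc hαc d B hBr hβ γ hγ h
      refine ⟨η, hη, fun N => ?_⟩
      obtain ⟨q, h3, h4, h5⟩ := h2 N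
      exact ⟨q, h3, h4, hps h4 h5⟩

end Pool.Agent.Results.MP_0ea415_nt.QuadraticRepetitions
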