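import Mathlib
import Pool.Agent.H380R2.CodeCF
import Pool.Agent.H380R2.CodeDigits

/-!
# The Littlewood conjecture for pairs with repetitive codes

Let `α` be irrational with partial quotients `a k` (`pq α k`) and convergents
`p_{k-1} / q_{k-1} = num α k / den α k`, let `β` be real, and let `n k` be integers with
`|q_{k-1} β - n k| ≤ B`, for instance the nearest integers.  The pair has the code
`(a (k+1), z k)`, where `z k = a (k+1) * n (k+1) + n k - n (k+2)` (`code α n k`).
We show: if for every `s` the code contains a word with some period `r` and of length at least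
`3 r + s` (where the `z k` may also change their signs from one period to the next), then the
Littlewood conjecture holds for `(α, β)`.  So the code of a counterexample is, up to an additive
constant, free of powers with exponent greater than `3`.

`digits` is the special case of digit expansions `β = ∑ k, x k * (q_{k-1} α - p_{k-1})`, and
`golden_thueMorse` an example.
-/

set_option autoImplicit false

namespace Pool.Agent.Results.MP_0ea415_nt.RepetitiveCodes

open Pool.Agent.H380R2.LC

/-- **Main result.** -/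
theorem result (α β : ℝ) (hα : Irrational α) (B : ℝ)
    (h : ∀ s : ℕ, ∃ (n : ℕ → ℤ) (r u : ℕ) (σ : ℤ), 1 ≤ r ∧ (σ = 1 ∨ σ = -1) ∧
      (∀ k, |(den α k : ℝ) * β - n k| ≤ B) ∧
      ∀ k, u ≤ k → k < u + 2 * r + s →
        pq α (k + r + 1) = pq α (k + 1) ∧ code α n (k + r) = σ * code α n k) :
    ∀ ε : ℝ, 0 < ε → ∀ N : ℕ, ∃ q : ℕ, N ≤ q ∧ 0 < q ∧
      (q : ℝ) * |(q : ℝ) * α - (round ((q : ℝ) * α) : ℝ)|
        * |(q : ℝ) * β - (round ((q : ℝ) * β) : ℝ)| < ε := by
  intro ε hε N
  obtain ⟨t₁, ht₁⟩ := pow_unbounded_of_one_lt (32 * B / ε) (by norm_num : (1 : ℝ) < 2)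
  set t : ℕ := t₁ + N with ht
  obtain ⟨n, r, u, σ, hr, hσ, hB, hper⟩ := h (4 * t + 2)
  obtain ⟨q, hq1, hq2⟩ := one_denominator hα B n hB r u t hr σ hσ hper
  have h2t : N < 2 ^ t := lt_of_lt_of_le (Nat.lt_two_pow_self) (Nat.pow_le_pow_right (by norm_num)
    (by omega : N ≤ t))
  refine ⟨q, by omega, by omega, ?_⟩
  change prod α β q < ε
  have h3 : (2 : ℝ) ^ t₁ ≤ 2 ^ t := pow_le_pow_right₀ (by norm_num) (by omega)
  have h4 : 32 * B < ε * 2 ^ t := by
    rw [div_lt_iff₀ hε] at ht₁
    nlinarith
  have h5 : (0 : ℝ) < 2 ^ t := by positivity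
  by_contra hcon
  push Not at hcon
  have : 2 ^ t * ε ≤ 2 ^ t * prod α β q := mul_le_mul_of_nonneg_left hcon h5.le
  linarith

/-- The special case of digit expansions `β = ∑ k, x k * (q_{k-1} α - p_{k-1})` with bounded
integer digits `x k`: if for every `s` the sequence of the pairs `(a k, x k)` contains a word of
period `r` (up to signs of the `x k`) and length at least `3 r + s`, then the Littlewood conjecture
holds for `(α, β)`. -/
theorem digits (α β : ℝ) (hα : Irrational α) (x : ℕ → ℤ) (X : ℝ) (hX : ∀ k, |(x k : ℝ)| ≤ X)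
    (hβ : HasSum (fun k => (x k : ℝ) * (den α k * α - num α k)) β)
    (h : ∀ s : ℕ, ∃ (r u : ℕ) (σ : ℤ), 1 ≤ r ∧ (σ = 1 ∨ σ = -1) ∧
      ∀ k, u < k → k ≤ u + 2 * r + s → pq α (k + r) = pq α k ∧ x (k + r) = σ * x k) :
    ∀ ε : ℝ, 0 < ε → ∀ N : ℕ, ∃ q : ℕ, N ≤ q ∧ 0 < q ∧
      (q : ℝ) * |(q : ℝ) * α - (round ((q : ℝ) * α) : ℝ)|
        * |(q : ℝ) * β - (round ((q : ℝ) * β) : ℝ)| < ε := by
  apply result α β hα (4 * X)
  intro s
  obtain ⟨r, u, σ, hr, hσ, hper⟩ := h s
  refine ⟨nn α x, r, u, (-1) ^ r * σ, hr, ?_, digit_bound hα x X hX hβ, ?_⟩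
  · rcases neg_one_pow_eq_or ℤ r with h1 | h1 <;> rcases hσ with rfl | rfl <;> simp [h1]
  · intro k h1 h2
    obtain ⟨h3, h4⟩ := hper (k + 1) (by omega) (by omega)
    rw [show k + 1 + r = k + r + 1 by ring] at h3 h4
    refine ⟨h3, ?_⟩
    rw [code_nn, code_nn, h4]
    ring

lemma cq_golden (k : ℕ) : cq Real.goldenRatio k = Real.goldenRatio := by
  have h1 : Int.fract Real.goldenRatio = Real.goldenRatio - 1 := by
    have h2 : ⌊Real.goldenRatio⌋ = 1 := by
      rw [Int.floor_eq_iff]
      constructor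
      · norm_num
        exact Real.one_lt_goldenRatio.le
      · norm_num
        linarith [Real.goldenRatio_lt_two]
    unfold Int.fract
    rw [h2]
    norm_num
  induction k with
  | zero => rfl
  | succ k ih =>
    show (Int.fract (cq Real.goldenRatio k))⁻¹ = Real.goldenRatio
    rw [ih, h1]
    have h3 := Real.goldenRatio_sq
    have h4 := Real.one_lt_goldenRatio
    apply inv_eq_of_mul_eq_one_left
    nlinarith

lemma pq_golden (k : ℕ) : pq Real.goldenRatio k = 1 := by
  unfold pq
  rw [cq_golden, Int.floor_eq_iff]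
  constructor
  · norm_num
    exact Real.one_lt_goldenRatio.le
  · norm_num
    linarith [Real.goldenRatio_lt_two]

lemma th_golden (k : ℕ) : (den Real.goldenRatio k : ℝ) * Real.goldenRatio -
    num Real.goldenRatio k = - (-(Real.goldenRatio)⁻¹) ^ k := by
  change th Real.goldenRatio k = _
  induction k with
  | zero => rw [th_zero]; norm_num
  | succ k ih =>
    rw [th_succ Real.goldenRatio_irrational, ih, cq_golden]
    have h1 : Int.fract Real.goldenRatio = (Real.goldenRatio)⁻¹ := by
      have h2 : cq Real.goldenRatio 1 = Real.goldenRatio := cq_golden 1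
      have h3 : cq Real.goldenRatio 1 = (Int.fract Real.goldenRatio)⁻¹ := rfl
      rw [h3] at h2
      rw [← h2, inv_inv, h2]
    rw [h1, pow_succ]
    ring

/-- Example: the Littlewood conjecture holds for the golden ratio `φ` and
`∑ k, t k * φ ^ (-k) = ∏ j, (1 - φ ^ (-2 ^ j))`, where `t` is the Thue–Morse sequence with values
`1` and `-1`. -/
theorem golden_thueMorse (t : ℕ → ℤ) (h0 : t 0 = 1) (he : ∀ k, t (2 * k) = t k)
    (ho : ∀ k, t (2 * k + 1) = - t k) :
    ∀ ε : ℝ, 0 < ε → ∀ N : ℕ, ∃ q : ℕ, N ≤ q ∧ 0 < q ∧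
      (q : ℝ) * |(q : ℝ) * Real.goldenRatio - (round ((q : ℝ) * Real.goldenRatio) : ℝ)|
        * |(q : ℝ) * (∑' k, (t k : ℝ) * (Real.goldenRatio⁻¹) ^ k) -
            (round ((q : ℝ) * (∑' k, (t k : ℝ) * (Real.goldenRatio⁻¹) ^ k)) : ℝ)| < ε := by
  have hblock : ∀ j l i, i < 2 ^ j → t (2 ^ j * l + i) = t l * t i := by
    intro j
    induction j with
    | zero =>
      intro l i hi
      have : i = 0 := by simpa using hi
      subst this
      simp [h0]
    | succ j ih =>
      intro l i hi
      rcases Nat.even_or_odd' i with ⟨c, rfl | rfl⟩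
      · have h1 : 2 ^ (j + 1) * l + 2 * c = 2 * (2 ^ j * l + c) := by ring
        rw [h1, he, he, ih l c (by rw [pow_succ] at hi; omega)]
      · have h1 : 2 ^ (j + 1) * l + (2 * c + 1) = 2 * (2 ^ j * l + c) + 1 := by ring
        rw [h1, ho, ho, ih l c (by rw [pow_succ] at hi; omega)]
        ring
  have habs : ∀ k, |t k| = 1 := by
    intro k
    induction k using Nat.strong_induction_on with
    | _ k ih =>
      rcases Nat.even_or_odd' k with ⟨c, rfl | rfl⟩
      · rcases Nat.eq_zero_or_pos c with rfl | hc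
        · simp [h0]
        · rw [he]
          exact ih c (by omega)
      · rw [ho, abs_neg]
        exact ih c (by omega)
  have habsR : ∀ k, |(t k : ℝ)| = 1 := fun k => by exact_mod_cast habs k
  have h1φ := Real.one_lt_goldenRatio
  have hinv0 : 0 ≤ (Real.goldenRatio)⁻¹ := by positivity
  have hinv1 : (Real.goldenRatio)⁻¹ < 1 := inv_lt_one_of_one_lt₀ h1φ
  have hsum : Summable (fun k => (t k : ℝ) * (Real.goldenRatio⁻¹) ^ k) := by
    apply Summable.of_norm_bounded (summable_geometric_of_lt_one hinv0 hinv1)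
    intro k
    rw [norm_mul, Real.norm_eq_abs, habsR, one_mul, norm_pow, Real.norm_eq_abs,
      abs_of_nonneg hinv0]
  apply digits Real.goldenRatio _ Real.goldenRatio_irrational (fun k => - ((-1) ^ k * t k)) 1
  · intro k
    push_cast
    rw [abs_neg, abs_mul, habsR, abs_pow, abs_neg, abs_one, one_pow, one_mul]
  · have h2 := hsum.hasSum
    convert h2 using 2 with k
    have h5 : (-Real.goldenRatio⁻¹) ^ k = (-1) ^ k * Real.goldenRatio⁻¹ ^ k := neg_pow _ _
    rw [th_golden, h5]
    push_cast
    have h3 : ((-1 : ℝ) ^ k) * (-1) ^ k = 1 := by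
      rw [← mul_pow]
      norm_num
    calc -((-1 : ℝ) ^ k * (t k : ℝ)) * -((-1) ^ k * Real.goldenRatio⁻¹ ^ k) =
        (((-1 : ℝ) ^ k) * (-1) ^ k) * ((t k : ℝ) * Real.goldenRatio⁻¹ ^ k) := by ring
      _ = _ := by rw [h3, one_mul]
  · intro s
    refine ⟨2 ^ (s + 1), 10 * 2 ^ (s + 1) - 1, -1, Nat.one_le_two_pow, Or.inr rfl, ?_⟩
    intro k h1 h2
    refine ⟨by rw [pq_golden, pq_golden], ?_⟩
    have hs : s < 2 ^ (s + 1) := lt_of_lt_of_le (Nat.lt_two_pow_self)
      (Nat.pow_le_pow_right (by norm_num) (by omega))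
    have hpos : 0 < 2 ^ (s + 1) := by positivity
    set R : ℕ := 2 ^ (s + 1) with hR
    have hk1 : 10 * R ≤ k := by omega
    have hk2 : k < 13 * R := by omega
    obtain ⟨l, i, hi, rfl⟩ : ∃ l i, i < R ∧ k = R * l + i :=
      ⟨k / R, k % R, Nat.mod_lt _ hpos, (Nat.div_add_mod k R).symm⟩
    have hl1 : 10 ≤ l := by
      by_contra hcon
      have : R * l + i < R * 10 := by
        calc R * l + i < R * l + R := by omega
          _ = R * (l + 1) := by ring
          _ ≤ R * 10 := Nat.mul_le_mul_left _ (by omega)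
      omega
    have hl2 : l ≤ 12 := by
      by_contra hcon
      have : R * 13 ≤ R * l := Nat.mul_le_mul_left _ (by omega)
      omega
    have h3 : R * l + i + R = R * (l + 1) + i := by ring
    have ht : ∀ c, t (2 * c) = t c ∧ t (2 * c + 1) = - t c := fun c => ⟨he c, ho c⟩
    have t1 : t 1 = -1 := by have := ho 0; simpa [h0] using this
    have t2 : t 2 = -1 := by have := he 1; simpa [t1] using this
    have t3 : t 3 = 1 := by have := ho 1; simpa [t1] using this
    have t5 : t 5 = 1 := by have := ho 2; simpa [t2] using this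
    have t6 : t 6 = 1 := by have := he 3; simpa [t3] using this
    have t10 : t 10 = 1 := by have := he 5; simpa [t5] using this
    have t11 : t 11 = -1 := by have := ho 5; simpa [t5] using this
    have t12 : t 12 = 1 := by have := he 6; simpa [t6] using this
    have t13 : t 13 = -1 := by have := ho 6; simpa [t6] using this
    have h4 : t (l + 1) = - t l := by
      interval_cases l
      · rw [t10, t11]
      · rw [t11, t12]; norm_num
      · rw [t12, t13]
    show -((-1 : ℤ) ^ (R * l + i + R) * t (R * l + i + R)) =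
      -1 * -((-1 : ℤ) ^ (R * l + i) * t (R * l + i))
    have hRe : (-1 : ℤ) ^ R = 1 := by
      rw [hR, pow_succ, mul_comm, pow_mul]
      norm_num
    rw [pow_add, hRe, mul_one, h3, hR, hblock _ _ _ hi, hblock _ _ _ hi, h4]
    ring

end Pool.Agent.Results.MP_0ea415_nt.RepetitiveCodes
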